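import Pool.Agent.N354.UC.Stm

/-!
# Leaf B: a map which is locally a covering gives isomorphic balls
-/

set_option autoImplicit false

namespace Pool.Agent.N354.UC

theorem ball_self {V : Type} (G : SimpleGraph V) (v : V) (r : ℕ) : v ∈ ball G v r :=
  ⟨SimpleGraph.Walk.nil, by simp⟩

theorem ball_mono {V : Type} (G : SimpleGraph V) (v : V) {r s : ℕ} (h : r ≤ s) :
    ball G v r ⊆ ball G v s := by
  rintro w ⟨p, hp⟩
  exact ⟨p, hp.trans h⟩

theorem ball_succ {V : Type} {G : SimpleGraph V} {v a b : V} {r : ℕ} (h : a ∈ ball G v r)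
    (hab : G.Adj a b) : b ∈ ball G v (r + 1) := by
  obtain ⟨p, hp⟩ := h
  exact ⟨p.concat hab, by rw [SimpleGraph.Walk.length_concat]; omega⟩

theorem ball_zero {V : Type} {G : SimpleGraph V} {v a : V} (h : a ∈ ball G v 0) : a = v := by
  obtain ⟨p, hp⟩ := h
  cases p with
  | nil => rfl
  | cons h q => simp at hp

theorem ball_cases {V : Type} {G : SimpleGraph V} {v b : V} {r : ℕ} (h : b ∈ ball G v (r + 1)) :
    b = v ∨ ∃ a ∈ ball G v r, G.Adj a b := by
  obtain ⟨p, hp⟩ := h
  have hq : p.reverse.length ≤ r + 1 := by rwa [SimpleGraph.Walk.length_reverse]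
  generalize p.reverse = q at hq
  cases q with
  | nil => exact Or.inl rfl
  | @cons _ a _ h q =>
    right
    refine ⟨a, ⟨q.reverse, ?_⟩, h.symm⟩
    rw [SimpleGraph.Walk.length_reverse]
    rw [SimpleGraph.Walk.length_cons] at hq
    omega

theorem t_B : S_B := by
  intro V W G H v w r p hpv ha hb hinj
  have himg : ∀ k, k ≤ r + 1 → ∀ a ∈ ball G v k, p a ∈ ball H w k := by
    intro k
    induction k with
    | zero =>
      intro _ a h
      rw [ball_zero h, hpv]
      exact ball_self H w 0
    | succ k ih =>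
      intro hk b hbb
      rcases ball_cases hbb with h | ⟨a, h1, h2⟩
      · rw [h, hpv]
        exact ball_self H w _
      · exact ball_succ (ih (by omega) a h1) (ha a (ball_mono G v (by omega) h1) b h2)
  have hsurj : ∀ k, k ≤ r + 1 → ∀ c ∈ ball H w k, ∃ a ∈ ball G v k, p a = c := by
    intro k
    induction k with
    | zero =>
      intro _ c h
      exact ⟨v, ball_self G v 0, by rw [ball_zero h, hpv]⟩
    | succ k ih =>
      intro hk c hc
      rcases ball_cases hc with h | ⟨d, h1, h2⟩
      · exact ⟨v, ball_self G v _, by rw [h, hpv]⟩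
      · obtain ⟨a, h3, h4⟩ := ih (by omega) d h1
        obtain ⟨b, h5, h6⟩ := hb a (ball_mono G v (by omega) h3) c (by rw [h4]; exact h2)
        exact ⟨b, ball_succ h3 h5, h6⟩
  have hinj' : Set.InjOn p (ball G v r) := hinj.mono (ball_mono G v (Nat.le_succ r))
  let f : ball G v r → ball H w r := fun a => ⟨p a, himg r (Nat.le_succ r) a a.2⟩
  have hf : Function.Bijective f := by
    constructor
    · intro a b hab
      exact Subtype.ext (hinj' a.2 b.2 (congrArg Subtype.val hab))
    · rintro ⟨c, hc⟩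
      obtain ⟨a, h1, h2⟩ := hsurj r (Nat.le_succ r) c hc
      exact ⟨⟨a, h1⟩, Subtype.ext h2⟩
  refine ⟨Equiv.ofBijective f hf, fun _ => hpv, fun a b => ?_⟩
  change G.Adj a b ↔ H.Adj (p a) (p b)
  constructor
  · exact ha a a.2 b
  · intro h
    obtain ⟨b', h1, h2⟩ := hb a a.2 (p b) h
    have : b' = b := hinj (ball_succ a.2 h1) (ball_mono G v (Nat.le_succ r) b.2) h2
    rwa [← this]

end Pool.Agent.N354.UC
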