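import Pool.Agent.N354.UC.B

/-!
# Leaf C: Cayley graphs of finite extensions of sofic groups are limits of finite graphs
-/

set_option autoImplicit false

open Filter Topology
open scoped Pointwise

namespace Pool.Agent.N354.UC

section Local

variable {H Q : Type} [Group H] [Group Q] [DecidableEq Q]

omit [DecidableEq Q] in
/-- adjacency in the Cayley graph of a full preimage -/
theorem cay_adj (π : H →* Q) (T : Finset Q) (S : Finset H) (hT : ∀ t ∈ T, t⁻¹ ∈ T)
    (hS : ∀ h, h ∈ S ↔ h ≠ 1 ∧ π h ∈ T) (a b : H) :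
    (cay S).Adj a b ↔ a ≠ b ∧ π b * (π a)⁻¹ ∈ T := by
  rw [cay, SimpleGraph.fromRel_adj]
  constructor
  · rintro ⟨h1, h2⟩
    refine ⟨h1, ?_⟩
    rcases h2 with ⟨s, hs, h3⟩ | ⟨s, hs, h3⟩
    · rw [h3, map_mul, mul_inv_cancel_right]
      exact ((hS s).1 hs).2
    · rw [h3, map_mul, mul_inv_rev, mul_inv_cancel_left]
      exact hT _ ((hS s).1 hs).2
  · rintro ⟨h1, h2⟩
    refine ⟨h1, Or.inl ⟨b * a⁻¹, (hS _).2 ⟨?_, ?_⟩, by group⟩⟩
    · intro h3
      exact h1 (mul_inv_eq_one.1 h3).symm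
    · rwa [map_mul, map_inv]

theorem pow_inv_mem (T : Finset Q) (hT : ∀ t ∈ T, t⁻¹ ∈ T) (k : ℕ) :
    ∀ q ∈ T ^ k, q⁻¹ ∈ T ^ k := by
  have h1 : T⁻¹ = T := by
    ext x
    rw [Finset.mem_inv']
    exact ⟨fun h => by simpa using hT _ h, fun h => hT _ h⟩
  intro q hq
  have h2 : (T ^ k)⁻¹ = T ^ k := by rw [← inv_pow, h1]
  rw [← h2]
  exact Finset.inv_mem_inv hq

theorem pow_mono (T : Finset Q) (h1 : (1 : Q) ∈ T) {j k : ℕ} (h : j ≤ k) : T ^ j ⊆ T ^ k :=
  Finset.pow_subset_pow_right h1 h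

theorem ball_pow (π : H →* Q) (T : Finset Q) (S : Finset H) (h1 : (1 : Q) ∈ T)
    (hT : ∀ t ∈ T, t⁻¹ ∈ T) (hS : ∀ h, h ∈ S ↔ h ≠ 1 ∧ π h ∈ T) (r : ℕ) :
    ∀ h ∈ ball (cay S) (1 : H) r, π h ∈ T ^ r := by
  induction r with
  | zero =>
    intro h hh
    rw [ball_zero hh, map_one, pow_zero]
    exact Finset.mem_one.2 rfl
  | succ r ih =>
    intro h hh
    rcases ball_cases hh with h2 | ⟨a, h2, h3⟩
    · rw [h2, map_one]
      exact Finset.one_mem_pow h1
    · have h4 := ((cay_adj π T S hT hS a h).1 h3).2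
      rw [pow_succ']
      have h5 := Finset.mul_mem_mul h4 (ih a h2)
      rwa [inv_mul_cancel_right] at h5

/-- the finite graph -/
def gr (T : Finset Q) {n : ℕ} (φ : Q → Equiv.Perm (Fin n)) (K : Type) :
    SimpleGraph (Fin n × K) :=
  SimpleGraph.fromRel (fun x y => ∃ t ∈ T, y.1 = φ t x.1)

/-- the good points -/
def Good (B : Finset Q) {n : ℕ} (φ : Q → Equiv.Perm (Fin n)) (v : Fin n) : Prop :=
  (∀ g ∈ B, ∀ h ∈ B, φ (g * h) v = (φ g * φ h) v) ∧ ∀ g ∈ B, g ≠ 1 → φ g v ≠ v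

theorem good_iso (π : H →* Q) (T : Finset Q) (S : Finset H) (h1 : (1 : Q) ∈ T)
    (hT : ∀ t ∈ T, t⁻¹ ∈ T) (hr : ∀ t ∈ T, t ∈ π.range)
    (hS : ∀ h, h ∈ S ↔ h ≠ 1 ∧ π h ∈ T) (r : ℕ)
    {n : ℕ} (φ : Q → Equiv.Perm (Fin n)) (v : Fin n) (B : Finset Q) (hB : T ^ (2 * r + 2) ⊆ B)
    (hv : Good B φ v) (i : π.ker) {N : ℕ} (e : Fin N ≃ Fin n × π.ker) :
    BallIso (cay S) (1 : H) ((gr T φ π.ker).comap e) (e.symm (v, i)) r := by
  classical
  obtain ⟨hmul, hfree⟩ := hv
  -- a section on the range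
  have hsec : ∀ q : Q, ∃ x : H, q ∈ π.range → π x = q := by
    intro q
    by_cases hq : q ∈ π.range
    · obtain ⟨x, hx⟩ := hq
      exact ⟨x, fun _ => hx⟩
    · exact ⟨1, fun h => absurd h hq⟩
  choose s hs using hsec
  let κ : H → π.ker := fun h => ⟨(s (π h))⁻¹ * h, by
    rw [MonoidHom.mem_ker, map_mul, map_inv, hs (π h) ⟨h, rfl⟩, inv_mul_cancel]⟩
  have hκ : ∀ h, h = s (π h) * (κ h : H) := fun h => by
    change h = s (π h) * ((s (π h))⁻¹ * h)
    rw [mul_inv_cancel_left]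
  let p : H → Fin n × π.ker := fun h => (φ (π h) v, κ h * (κ 1)⁻¹ * i)
  have hone : (1 : Q) ∈ T ^ (2 * r + 2) := Finset.one_mem_pow h1
  have hφ1 : φ 1 v = v := by
    have h := hmul 1 (hB hone) 1 (hB hone)
    rw [one_mul, Equiv.Perm.mul_apply] at h
    exact ((φ 1).injective h).symm
  have hTB : T ⊆ B := by
    refine Finset.Subset.trans ?_ hB
    calc T = T ^ 1 := (pow_one T).symm
      _ ⊆ T ^ (2 * r + 2) := pow_mono T h1 (by omega)
  have hk : ∀ k, k ≤ 2 * r + 2 → T ^ k ⊆ B := fun k hk => (pow_mono T h1 hk).trans hB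
  -- injectivity
  have hinjQ : ∀ q ∈ T ^ (r + 1), ∀ q' ∈ T ^ (r + 1), φ q v = φ q' v → q = q' := by
    intro q hq q' hq' h
    by_contra hne
    have hqi := pow_inv_mem T hT _ q hq
    have h2 : φ (q⁻¹ * q) v = φ (q⁻¹ * q') v := by
      rw [hmul _ (hk _ (by omega) hqi) _ (hk _ (by omega) hq),
        hmul _ (hk _ (by omega) hqi) _ (hk _ (by omega) hq'), Equiv.Perm.mul_apply,
        Equiv.Perm.mul_apply, h]
    rw [inv_mul_cancel, hφ1] at h2
    have h3 : q⁻¹ * q' ∈ T ^ (2 * r + 2) := by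
      have := Finset.mul_mem_mul hqi hq'
      rw [← pow_add] at this
      have h4 : r + 1 + (r + 1) = 2 * r + 2 := by ring
      rwa [h4] at this
    exact hfree _ (hB h3) (fun h5 => hne (inv_mul_eq_one.1 h5)) h2.symm
  have hinj : Set.InjOn p (ball (cay S) (1 : H) (r + 1)) := by
    intro a ha b hb hab
    have h2 : φ (π a) v = φ (π b) v := congrArg Prod.fst hab
    have h3 : κ a * (κ 1)⁻¹ * i = κ b * (κ 1)⁻¹ * i := congrArg Prod.snd hab
    have h4 := hinjQ _ (ball_pow π T S h1 hT hS _ a ha) _ (ball_pow π T S h1 hT hS _ b hb) h2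
    have h5 : κ a = κ b := mul_right_cancel (mul_right_cancel h3)
    rw [hκ a, hκ b, h4, h5]
  have hp1 : e.symm (p 1) = e.symm (v, i) := by
    congr 1
    change (φ (π 1) v, κ 1 * (κ 1)⁻¹ * i) = (v, i)
    rw [map_one, hφ1, mul_inv_cancel, one_mul]
  refine t_B H (Fin N) (cay S) _ 1 _ r (fun h => e.symm (p h)) hp1 ?_ ?_ ?_
  · -- forwards
    intro a ha b hab
    change (gr T φ π.ker).Adj (e (e.symm (p a))) (e (e.symm (p b)))
    rw [Equiv.apply_symm_apply, Equiv.apply_symm_apply, gr, SimpleGraph.fromRel_adj]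
    refine ⟨fun h => hab.ne (hinj (ball_mono _ _ (Nat.le_succ r) ha) (ball_succ ha hab) h), ?_⟩
    have h2 := ((cay_adj π T S hT hS a b).1 hab).2
    refine Or.inl ⟨_, h2, ?_⟩
    change φ (π b) v = φ (π b * (π a)⁻¹) (φ (π a) v)
    rw [← Equiv.Perm.mul_apply, ← hmul _ (hTB h2) _ (hk _ (by omega)
      (ball_pow π T S h1 hT hS _ a ha)), inv_mul_cancel_right]
  · -- backwards
    intro a ha c hc
    have hc' : (gr T φ π.ker).Adj (e (e.symm (p a))) (e c) := hc
    rw [Equiv.apply_symm_apply, gr, SimpleGraph.fromRel_adj] at hc'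
    obtain ⟨hne, hc2⟩ := hc'
    have hpa := ball_pow π T S h1 hT hS _ a ha
    -- the key: (e c).1 = φ (t * π a) v
    have key : ∃ t ∈ T, (e c).1 = φ (t * π a) v := by
      rcases hc2 with ⟨t, ht, h2⟩ | ⟨t, ht, h2⟩
      · refine ⟨t, ht, ?_⟩
        rw [h2, hmul _ (hTB ht) _ (hk _ (by omega) hpa)]
        rfl
      · refine ⟨t⁻¹, hT t ht, ?_⟩
        have h3 : t⁻¹ * π a ∈ T ^ (r + 1) := by
          rw [pow_succ']
          exact Finset.mul_mem_mul (hT t ht) hpa
        have h4 := hmul _ (hTB ht) _ (hk _ (by omega) h3)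
        rw [mul_inv_cancel_left, Equiv.Perm.mul_apply] at h4
        have h5 : φ (π a) v = φ t (e c).1 := h2
        rw [h5] at h4
        exact (φ t).injective h4
    obtain ⟨t, ht, h2⟩ := key
    have htr : t * π a ∈ π.range := mul_mem (hr t ht) ⟨a, rfl⟩
    let k : π.ker := (e c).2 * i⁻¹ * κ 1
    let b : H := s (t * π a) * (k : H)
    have hπb : π b = t * π a := by
      change π (s (t * π a) * (k : H)) = _
      rw [map_mul, hs _ htr, MonoidHom.mem_ker.1 k.2, mul_one]
    have hκb : κ b = k := by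
      apply Subtype.ext
      change (s (π b))⁻¹ * b = k
      rw [hπb]
      change (s (t * π a))⁻¹ * (s (t * π a) * (k : H)) = k
      rw [inv_mul_cancel_left]
    have hpb : p b = e c := by
      change (φ (π b) v, κ b * (κ 1)⁻¹ * i) = e c
      rw [hκb, hπb, ← h2]
      apply Prod.ext
      · rfl
      · change (e c).2 * i⁻¹ * κ 1 * (κ 1)⁻¹ * i = (e c).2
        group
    refine ⟨b, (cay_adj π T S hT hS a b).2 ⟨?_, ?_⟩, ?_⟩
    · intro h3
      exact hne (by rw [h3, hpb])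
    · rw [hπb, mul_inv_cancel_right]
      exact ht
    · rw [hpb, Equiv.symm_apply_apply]
  · intro a ha b hb hab
    exact hinj ha hb (e.symm.injective hab)

/-- counting the good points -/
theorem good_card (B : Finset Q) {n : ℕ} (φ : Q → Equiv.Perm (Fin n)) (ε : ℝ) (hε : 0 ≤ ε)
    (h1 : ∀ g ∈ B, ∀ h ∈ B,
        (((Finset.univ.filter (fun i => φ (g * h) i ≠ (φ g * φ h) i)).card : ℝ) < ε * n))
    (h2 : ∀ g ∈ B, g ≠ 1 →
        (1 - ε) * n ≤ ((Finset.univ.filter (fun i => φ g i ≠ i)).card : ℝ)) :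
    open Classical in
    (n : ℝ) - ((B.card : ℝ) ^ 2 + B.card) * (ε * n) ≤
      ((Finset.univ.filter (fun v => Good B φ v)).card : ℝ) := by
  classical
  have hcov : (Finset.univ : Finset (Fin n)) ⊆
      Finset.univ.filter (fun v => Good B φ v) ∪
      (((B ×ˢ B).biUnion (fun gh => Finset.univ.filter
        (fun i => φ (gh.1 * gh.2) i ≠ (φ gh.1 * φ gh.2) i))) ∪
      ((B.filter (fun g => g ≠ 1)).biUnion (fun g => Finset.univ.filter (fun i => φ g i = i)))) := by
    intro v _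
    by_cases hv : Good B φ v
    · exact Finset.mem_union_left _ (Finset.mem_filter.2 ⟨Finset.mem_univ _, hv⟩)
    · apply Finset.mem_union_right
      rw [Good, not_and_or] at hv
      rcases hv with hv | hv
      · push Not at hv
        obtain ⟨g, hg, h, hh, h3⟩ := hv
        apply Finset.mem_union_left
        exact Finset.mem_biUnion.2 ⟨(g, h), Finset.mem_product.2 ⟨hg, hh⟩,
          Finset.mem_filter.2 ⟨Finset.mem_univ _, h3⟩⟩
      · push Not at hv
        obtain ⟨g, hg, hg1, h3⟩ := hv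
        apply Finset.mem_union_right
        exact Finset.mem_biUnion.2 ⟨g, Finset.mem_filter.2 ⟨hg, hg1⟩,
          Finset.mem_filter.2 ⟨Finset.mem_univ _, h3⟩⟩
  have hc := (Finset.card_le_card hcov).trans ((Finset.card_union_le _ _).trans
    (Nat.add_le_add_left ((Finset.card_union_le _ _).trans
      (Nat.add_le_add Finset.card_biUnion_le Finset.card_biUnion_le)) _))
  rw [Finset.card_univ, Fintype.card_fin] at hc
  have hc' : (n : ℝ) ≤ ((Finset.univ.filter (fun v => Good B φ v)).card : ℝ) +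
      ((∑ gh ∈ B ×ˢ B, ((Finset.univ.filter
        (fun i => φ (gh.1 * gh.2) i ≠ (φ gh.1 * φ gh.2) i)).card : ℝ)) +
      ∑ g ∈ B.filter (fun g => g ≠ 1), ((Finset.univ.filter (fun i => φ g i = i)).card : ℝ)) := by
    exact_mod_cast hc
  have h3 : (∑ gh ∈ B ×ˢ B, ((Finset.univ.filter
        (fun i => φ (gh.1 * gh.2) i ≠ (φ gh.1 * φ gh.2) i)).card : ℝ)) ≤
        (B.card : ℝ) ^ 2 * (ε * n) := by
    calc _ ≤ ∑ gh ∈ B ×ˢ B, ε * (n : ℝ) := by
          refine Finset.sum_le_sum fun gh hgh => ?_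
          rw [Finset.mem_product] at hgh
          exact (h1 _ hgh.1 _ hgh.2).le
      _ = _ := by
          rw [Finset.sum_const, Finset.card_product, nsmul_eq_mul]
          push_cast
          ring
  have h4 : ∑ g ∈ B.filter (fun g => g ≠ 1),
      ((Finset.univ.filter (fun i => φ g i = i)).card : ℝ) ≤ (B.card : ℝ) * (ε * n) := by
    calc _ ≤ ∑ g ∈ B.filter (fun g => g ≠ 1), ε * (n : ℝ) := by
          refine Finset.sum_le_sum fun g hg => ?_
          rw [Finset.mem_filter] at hg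
          have h5 := h2 g hg.1 hg.2
          have h6 : (Finset.univ.filter (fun i => φ g i = i)).card +
              (Finset.univ.filter (fun i => φ g i ≠ i)).card = n := by
            have := Finset.card_filter_add_card_filter_not (s := (Finset.univ : Finset (Fin n)))
              (fun i => φ g i = i)
            rwa [Finset.card_univ, Fintype.card_fin] at this
          have h7 : ((Finset.univ.filter (fun i => φ g i = i)).card : ℝ) +
              ((Finset.univ.filter (fun i => φ g i ≠ i)).card : ℝ) = n := by exact_mod_cast h6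
          linarith
      _ = ((B.filter (fun g => g ≠ 1)).card : ℝ) * (ε * n) := by
          rw [Finset.sum_const, nsmul_eq_mul]
      _ ≤ _ := by
          exact mul_le_mul_of_nonneg_right (by exact_mod_cast Finset.card_filter_le _ _)
            (by positivity)
  linarith

end Local

theorem t_C0 (H Q : Type) [Group H] [Group Q] (π : H →* Q) (hfin : Finite π.ker) (hQ : HS Q)
    (T : Finset Q) (S : Finset H) (h1 : (1 : Q) ∈ T) (hT : ∀ t ∈ T, t⁻¹ ∈ T)
    (hr : ∀ t ∈ T, t ∈ π.range) (hS : ∀ h, h ∈ S ↔ h ≠ 1 ∧ π h ∈ T) :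
    IsLimit (cay S) (1 : H) := by
  classical
  have : Fintype π.ker := Fintype.ofFinite _
  let B : ℕ → Finset Q := fun k => T ^ (2 * k + 2)
  let c : ℕ → ℝ := fun k => ((B k).card : ℝ) ^ 2 + (B k).card
  have hc : ∀ k, 0 ≤ c k := fun k => by positivity
  let ε : ℕ → ℝ := fun k => 1 / (((k : ℝ) + 1) * (c k + 1))
  have hε : ∀ k, 0 < ε k := fun k => by
    have := hc k
    positivity
  have hcε : ∀ k, c k * ε k ≤ 1 / ((k : ℝ) + 1) := by
    intro k
    have h2 : 0 < c k + 1 := by linarith [hc k]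
    have h3 : c k * ε k = (c k / (c k + 1)) * (1 / ((k : ℝ) + 1)) := by
      change c k * (1 / (((k : ℝ) + 1) * (c k + 1))) = _
      field_simp
    rw [h3]
    have h4 : c k / (c k + 1) ≤ 1 := by
      rw [div_le_one h2]
      linarith
    have h5 : (0 : ℝ) ≤ 1 / ((k : ℝ) + 1) := by positivity
    calc _ ≤ 1 * (1 / ((k : ℝ) + 1)) := mul_le_mul_of_nonneg_right h4 h5
      _ = _ := one_mul _
  choose n φ hφ1 hφ2 using fun k => hQ (B k) (ε k) (hε k)
  have hnpos : ∀ k, 0 < n k := by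
    intro k
    have h2 : (1 : Q) ∈ B k := Finset.one_mem_pow h1
    have h3 := hφ1 k 1 h2 1 h2
    have h4 : (0 : ℝ) < ε k * n k := lt_of_le_of_lt (Nat.cast_nonneg _) h3
    have h5 : (0 : ℝ) < n k := by
      by_contra h6
      have h7 : (n k : ℝ) = 0 := le_antisymm (not_lt.1 h6) (Nat.cast_nonneg _)
      rw [h7, mul_zero] at h4
      exact lt_irrefl _ h4
    exact_mod_cast h5
  let m : ℕ := Fintype.card π.ker
  have hm : 0 < m := Fintype.card_pos
  have hcard : ∀ k, Fintype.card (Fin (n k) × π.ker) = n k * m := fun k => by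
    rw [Fintype.card_prod, Fintype.card_fin]
  let e : ∀ k, Fin (n k * m) ≃ Fin (n k) × π.ker := fun k =>
    ((Fintype.equivFinOfCardEq (hcard k))).symm
  refine ⟨fun k => n k * m, fun k => (gr T (φ k) π.ker).comap (e k),
    fun k => Nat.mul_pos (hnpos k) hm, fun r => ?_⟩
  have hlow : ∀ k, r ≤ k → 1 - 1 / ((k : ℝ) + 1) ≤ ((Finset.univ.filter
      (fun v : Fin (n k * m) => BallIso (cay S) (1 : H) ((gr T (φ k) π.ker).comap (e k)) v r)).card
        : ℝ) / ((n k * m : ℕ) : ℝ) := by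
    intro k hk
    have hg := good_card (B k) (φ k) (ε k) (hε k).le (hφ1 k) (hφ2 k)
    set Gd := Finset.univ.filter (fun v => Good (B k) (φ k) v) with hGd
    have hsub : (Gd ×ˢ (Finset.univ : Finset π.ker)).map (e k).symm.toEmbedding ⊆
        Finset.univ.filter (fun v : Fin (n k * m) =>
          BallIso (cay S) (1 : H) ((gr T (φ k) π.ker).comap (e k)) v r) := by
      intro x hx
      rw [Finset.mem_map] at hx
      obtain ⟨⟨v, i⟩, h2, h3⟩ := hx
      rw [Finset.mem_product] at h2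
      have h4 : Good (B k) (φ k) v := (Finset.mem_filter.1 h2.1).2
      rw [Finset.mem_filter]
      refine ⟨Finset.mem_univ _, ?_⟩
      rw [← h3]
      exact good_iso π T S h1 hT hr hS r (φ k) v (B k)
        (pow_mono T h1 (by omega)) h4 i (e k)
    have h5 := Finset.card_le_card hsub
    rw [Finset.card_map, Finset.card_product, Finset.card_univ] at h5
    have h6 : ((Gd.card * m : ℕ) : ℝ) ≤ ((Finset.univ.filter
      (fun v : Fin (n k * m) => BallIso (cay S) (1 : H) ((gr T (φ k) π.ker).comap (e k)) v r)).card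
        : ℝ) := by exact_mod_cast h5
    have hn : (0 : ℝ) < n k := by exact_mod_cast hnpos k
    have hm' : (0 : ℝ) < m := by exact_mod_cast hm
    rw [le_div_iff₀ (by push_cast; positivity)]
    refine le_trans ?_ h6
    push_cast
    have h7 : (1 - 1 / ((k : ℝ) + 1)) * n k ≤ Gd.card := by
      have h8 : c k * (ε k * n k) ≤ 1 / ((k : ℝ) + 1) * n k := by
        rw [← mul_assoc]
        exact mul_le_mul_of_nonneg_right (hcε k) hn.le
      have h9 : (n k : ℝ) - c k * (ε k * n k) ≤ Gd.card := hg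
      linarith
    calc (1 - 1 / ((k : ℝ) + 1)) * ((n k : ℝ) * m) = ((1 - 1 / ((k : ℝ) + 1)) * n k) * m := by ring
      _ ≤ Gd.card * m := mul_le_mul_of_nonneg_right h7 hm'.le
  have hupp : ∀ k, ((Finset.univ.filter
      (fun v : Fin (n k * m) => BallIso (cay S) (1 : H) ((gr T (φ k) π.ker).comap (e k)) v r)).card
        : ℝ) / ((n k * m : ℕ) : ℝ) ≤ 1 := by
    intro k
    have hpos : (0 : ℝ) < ((n k * m : ℕ) : ℝ) := by exact_mod_cast Nat.mul_pos (hnpos k) hm
    rw [div_le_one hpos]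
    have := Finset.card_filter_le (Finset.univ : Finset (Fin (n k * m)))
      (fun v : Fin (n k * m) => BallIso (cay S) (1 : H) ((gr T (φ k) π.ker).comap (e k)) v r)
    rw [Finset.card_univ, Fintype.card_fin] at this
    exact_mod_cast this
  refine tendsto_of_tendsto_of_tendsto_of_le_of_le' (g := fun k : ℕ => 1 - 1 / ((k : ℝ) + 1))
    (h := fun _ => 1) ?_ tendsto_const_nhds ?_ (Eventually.of_forall hupp)
  · have := tendsto_one_div_add_atTop_nhds_zero_nat (𝕜 := ℝ)
    simpa using this.const_sub 1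
  · exact eventually_atTop.2 ⟨r, hlow⟩

theorem t_C : S_C := by
  classical
  intro H Q _ _ π hfin hQ T S h1 hT hS
  refine t_C0 H Q π hfin hQ (T.filter (fun t => t ∈ π.range)) S ?_ ?_ ?_ ?_
  · exact Finset.mem_filter.2 ⟨h1, one_mem _⟩
  · intro t ht
    rw [Finset.mem_filter] at ht ⊢
    exact ⟨hT t ht.1, inv_mem ht.2⟩
  · intro t ht
    exact (Finset.mem_filter.1 ht).2
  · intro h
    rw [hS, Finset.mem_filter]
    exact ⟨fun h2 => ⟨h2.1, h2.2, ⟨h, rfl⟩⟩, fun h2 => ⟨h2.1, h2.2.1⟩⟩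

end Pool.Agent.N354.UC
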