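import Pool.Agent.N354.UC.C

/-!
# Assembly: from a non-sofic extension by a group of order two
-/

set_option autoImplicit false

open Filter Topology

namespace Pool.Agent.N354.UC

/-- The negative answer to MP_67b2ac_al (the frozen statement S01758). -/
def NotMain : Prop :=
  ¬ (∀ (G : Type) [Group G] (N : Subgroup G) [N.Normal], Nat.card N = 2 → HS (G ⧸ N) → HS G)

/-- The statement of the result. -/
def Goal : Prop :=
  ∃ (Γ : Type) (_ : Group Γ) (S : Finset Γ), (∀ s ∈ S, s⁻¹ ∈ S) ∧ (1 : Γ) ∉ S ∧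
    Subgroup.closure (S : Set Γ) = ⊤ ∧ ¬ Sofic Γ ∧ IsLimit (cay S) (1 : Γ)

theorem goal_of (hA : S_A) (h : NotMain) : Goal := by
  classical
  unfold NotMain at h
  push Not at h
  obtain ⟨G, _, N, _, hN, hQ, hG⟩ := h
  have hNfin : Finite N := Nat.finite_of_card_ne_zero (by rw [hN]; norm_num)
  unfold HS at hG
  push Not at hG
  obtain ⟨F, ε, hε, hF⟩ := hG
  let H : Subgroup G := Subgroup.closure (F : Set G)
  have hFH : ∀ g ∈ F, g ∈ H := fun g hg => Subgroup.subset_closure hg
  -- `H` is not sofic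
  have hH : ¬ HS H := by
    intro hHS
    obtain ⟨n, φ, h1, h2⟩ := hHS (F.subtype (fun g => g ∈ H)) ε hε
    let ψ : G → Equiv.Perm (Fin n) := fun g => if h : g ∈ H then φ ⟨g, h⟩ else 1
    have hψ : ∀ (g : G) (h : g ∈ H), ψ g = φ ⟨g, h⟩ := fun g h => dif_pos h
    obtain ⟨g, hg, hg1, h3⟩ := hF n ψ (by
      intro g hg h hh
      have hgH := hFH g hg
      have hhH := hFH h hh
      have h4 := h1 ⟨g, hgH⟩ (Finset.mem_subtype.2 hg) ⟨h, hhH⟩ (Finset.mem_subtype.2 hh)
      rw [hψ g hgH, hψ h hhH, hψ (g * h) (mul_mem hgH hhH)]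
      exact h4)
    have hgH := hFH g hg
    have h4 := h2 ⟨g, hgH⟩ (Finset.mem_subtype.2 hg) (fun h5 => hg1 (congrArg Subtype.val h5))
    rw [hψ g hgH] at h3
    exact absurd h4 (not_le.2 h3)
  let π : H →* G ⧸ N := (QuotientGroup.mk' N).comp H.subtype
  have hker : ∀ x : H, x ∈ π.ker → (x : G) ∈ N := by
    intro x hx
    rw [MonoidHom.mem_ker] at hx
    exact (QuotientGroup.eq_one_iff (x : G)).1 hx
  have hfin : Finite π.ker :=
    Finite.of_injective (fun x : π.ker => (⟨((x : H) : G), hker x x.2⟩ : N)) (by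
      intro x y hxy
      have h1 : ((x : H) : G) = ((y : H) : G) := congrArg (fun z : N => (z : G)) hxy
      exact Subtype.ext (Subtype.ext h1))
  let T : Finset (G ⧸ N) := (insert (1 : G) (F ∪ F.image (fun g => g⁻¹))).image
    (QuotientGroup.mk' N)
  have hT1 : (1 : G ⧸ N) ∈ T := Finset.mem_image.2 ⟨1, Finset.mem_insert_self _ _, map_one _⟩
  have hTinv : ∀ t ∈ T, t⁻¹ ∈ T := by
    intro t ht
    obtain ⟨g, hg, rfl⟩ := Finset.mem_image.1 ht
    refine Finset.mem_image.2 ⟨g⁻¹, ?_, map_inv _ _⟩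
    rw [Finset.mem_insert, Finset.mem_union, Finset.mem_image] at hg ⊢
    rcases hg with h1 | h1 | ⟨a, h1, h2⟩
    · left; rw [h1, inv_one]
    · right; right; exact ⟨g, h1, rfl⟩
    · right; left; rw [← h2, inv_inv]; exact h1
  have hSfin : (π ⁻¹' (T : Set (G ⧸ N))).Finite := by
    refine Set.Finite.preimage' T.finite_toSet (fun b _ => ?_)
    by_cases hb : ∃ x0, π x0 = b
    · obtain ⟨x0, hx0⟩ := hb
      refine Set.Finite.subset (Set.finite_range (fun k : π.ker => x0 * (k : H))) ?_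
      intro x hx
      have hx' : π x = b := hx
      refine ⟨⟨x0⁻¹ * x, ?_⟩, mul_inv_cancel_left _ _⟩
      rw [MonoidHom.mem_ker, map_mul, map_inv, hx0, hx', inv_mul_cancel]
    · have : π ⁻¹' {b} = ∅ := by
        ext x
        simp only [Set.mem_preimage, Set.mem_singleton_iff, Set.mem_empty_iff_false, iff_false]
        exact fun hx => hb ⟨x, hx⟩
      rw [this]
      exact Set.finite_empty
  let S : Finset H := hSfin.toFinset.filter (fun h => h ≠ 1)
  have hS : ∀ h, h ∈ S ↔ h ≠ 1 ∧ π h ∈ T := by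
    intro h
    rw [Finset.mem_filter, Set.Finite.mem_toFinset, Set.mem_preimage, Finset.mem_coe]
    exact and_comm
  refine ⟨H, inferInstance, S, ?_, ?_, ?_, fun h1 => hH (hA H h1), ?_⟩
  · intro s hs
    rw [hS] at hs ⊢
    exact ⟨fun h1 => hs.1 (inv_eq_one.1 h1), by rw [map_inv]; exact hTinv _ hs.2⟩
  · intro h1
    exact ((hS 1).1 h1).1 rfl
  · rw [eq_top_iff, ← Subgroup.closure_closure_coe_preimage (k := (F : Set G)),
      Subgroup.closure_le]
    intro x hx
    have hx' : (x : G) ∈ F := hx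
    by_cases hx1 : x = 1
    · rw [hx1]
      exact one_mem _
    · refine Subgroup.subset_closure ?_
      rw [Finset.mem_coe, hS]
      exact ⟨hx1, Finset.mem_image.2 ⟨(x : G), Finset.mem_insert_of_mem
        (Finset.mem_union_left _ hx'), rfl⟩⟩
  · exact t_C H (G ⧸ N) π hfin hQ T S hT1 hTinv hS

end Pool.Agent.N354.UC
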