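import Mathlib

/-!
# Unlabelled Cayley graphs of non-sofic groups: statements (MP_1644eb_al)
-/

set_option autoImplicit false

open Filter Topology

namespace Pool.Agent.N354.UC

/-- The ball of radius `r` about `v` in the graph metric of `G`. -/
def ball {V : Type} (G : SimpleGraph V) (v : V) (r : ℕ) : Set V :=
  {w | ∃ p : G.Walk v w, p.length ≤ r}

/-- The rooted balls of radius `r` about `v` (in `G`) and `w` (in `H`), as induced subgraphs, are
isomorphic by an isomorphism which preserves the roots. -/
def BallIso {V W : Type} (G : SimpleGraph V) (v : V) (H : SimpleGraph W) (w : W) (r : ℕ) : Prop :=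
  ∃ e : ball G v r ≃ ball H w r,
    (∀ h : v ∈ ball G v r, ((e ⟨v, h⟩ : ball H w r) : W) = w) ∧
    ∀ a b : ball G v r, G.Adj (a : V) (b : V) ↔ H.Adj (e a : W) (e b : W)

/-- The Cayley graph of `Γ` with respect to `S`: `x` and `s x` are adjacent. -/
def cay {Γ : Type} [Group Γ] (S : Finset Γ) : SimpleGraph Γ :=
  SimpleGraph.fromRel (fun x y => ∃ s ∈ S, y = s * x)

/-- The simple graph which underlies a directed graph with labelled edges (`E s v w`: there is an
edge from `v` to `w` with label `s`). -/
def under {V L : Type} (E : L → V → V → Prop) : SimpleGraph V :=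
  SimpleGraph.fromRel (fun v w => ∃ s, E s v w)

/-- The ball of radius `r` about `v` in the labelled directed graph `E` is isomorphic to the ball
about `1` in the labelled Cayley graph of `Γ` (which has an edge from `x` to `s x` with label `s`),
by an isomorphism which preserves roots, directions and labels. -/
def LabIso {Γ : Type} [Group Γ] (S : Finset Γ) {V : Type} (E : S → V → V → Prop) (v : V) (r : ℕ) :
    Prop :=
  ∃ e : ball (under E) v r ≃ ball (cay S) (1 : Γ) r,
    (∀ h : v ∈ ball (under E) v r, ((e ⟨v, h⟩ : ball (cay S) (1 : Γ) r) : Γ) = 1) ∧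
    ∀ (s : S) (a b : ball (under E) v r),
      E s (a : V) (b : V) ↔ ((e b : Γ) = (s : Γ) * (e a : Γ))

/-- `Γ` is sofic: for some finite symmetric generating set `S`, for all `ε` and `r` there is a finite
(nonempty) directed graph with edges labelled by `S` in which the balls of radius `r` about all but a
proportion `ε` of the vertices are isomorphic to the ball of radius `r` in the labelled Cayley
graph. -/
def Sofic (Γ : Type) [Group Γ] : Prop :=
  ∃ S : Finset Γ, (∀ s ∈ S, s⁻¹ ∈ S) ∧ Subgroup.closure (S : Set Γ) = ⊤ ∧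
    ∀ ε : ℝ, 0 < ε → ∀ r : ℕ, ∃ (n : ℕ) (E : S → Fin n → Fin n → Prop) (V₀ : Finset (Fin n)),
      0 < n ∧ (1 - ε) * (n : ℝ) ≤ (V₀.card : ℝ) ∧ ∀ v ∈ V₀, LabIso S E v r

open Classical in
/-- The point mass at the rooted graph `(G, o)` is the weak limit of the laws of a sequence of finite
simple graphs: for every `r` the proportion of the vertices of the `k`-th graph about which the ball
of radius `r` is isomorphic to the ball about `o` in `G` tends to `1`. -/
def IsLimit {V : Type} (G : SimpleGraph V) (o : V) : Prop :=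
  ∃ (n : ℕ → ℕ) (H : ∀ k, SimpleGraph (Fin (n k))), (∀ k, 0 < n k) ∧
    ∀ r : ℕ, Tendsto (fun k => ((Finset.univ.filter
      (fun v : Fin (n k) => BallIso G o (H k) v r)).card : ℝ) / (n k : ℝ)) atTop (𝓝 1)

/-- Soficity by permutations (the form of the frozen statement S01758). -/
def HS (G : Type) [Group G] : Prop :=
  ∀ (F : Finset G) (ε : ℝ), 0 < ε →
    ∃ n : ℕ, ∃ φ : G → Equiv.Perm (Fin n),
      (∀ g ∈ F, ∀ h ∈ F,
        (((Finset.univ.filter (fun i => φ (g * h) i ≠ (φ g * φ h) i)).card : ℝ) < ε * n)) ∧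
      (∀ g ∈ F, g ≠ 1 →
        (1 - ε) * n ≤ ((Finset.univ.filter (fun i => φ g i ≠ i)).card : ℝ))

/-- Leaf A: labelled graphs give permutations. For `v ∈ V₀` and `g` of word length `≤ R/2 - 1` let
`φ_g v` be the vertex `e_v⁻¹ g` of the ball of `v`; it is the end of the path from `v` whose labels
spell `g`. `φ_g` is injective on `V₀` (edges with a given label into a vertex of the ball of `v` have
at most one start), so it extends to a permutation (`Equiv.extendSubtype`), `φ_g (φ_h v) = φ_{gh} v`
if `v, φ_h v ∈ V₀`, and `φ_g v ≠ v` for `g ≠ 1`. -/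
def S_A : Prop := ∀ (Γ : Type) [Group Γ], Sofic Γ → HS Γ

/-- Leaf B: a map which is locally a covering gives isomorphic balls. -/
def S_B : Prop := ∀ (V W : Type) (G : SimpleGraph V) (H : SimpleGraph W) (v : V) (w : W) (r : ℕ)
    (p : V → W), p v = w →
    (∀ a ∈ ball G v r, ∀ b, G.Adj a b → H.Adj (p a) (p b)) →
    (∀ a ∈ ball G v r, ∀ c, H.Adj (p a) c → ∃ b, G.Adj a b ∧ p b = c) →
    Set.InjOn p (ball G v (r + 1)) → BallIso G v H w r

/-- Leaf C: the Cayley graph of a finite extension of a sofic group with respect to a full preimage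
is a limit of finite graphs. -/
def S_C : Prop := ∀ (H Q : Type) [Group H] [Group Q] (π : H →* Q), Finite π.ker →
    HS Q → ∀ (T : Finset Q) (S : Finset H), (1 : Q) ∈ T → (∀ t ∈ T, t⁻¹ ∈ T) →
      (∀ h, h ∈ S ↔ h ≠ 1 ∧ π h ∈ T) → IsLimit (cay S) (1 : H)

end Pool.Agent.N354.UC
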